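import Mathlib

set_option autoImplicit false
open Set Filter Topology TopologicalSpace

namespace Pool.Agent.H.MP_d968d9
universe u
variable {X : Type u}

def Wd (Γ : Set (Set X)) (x : X) (n : ℕ) : Prop :=
  ∀ f : Fin (n + 1) → Set X, (∀ i, f i ∈ Γ) → (∀ i, x ∈ f i) → ∃ i j, i ≠ j ∧ f i ⊆ f j

def Rk (Γ : Set (Set X)) (x : X) (n : ℕ) : Prop :=
  ∀ 𝒜 ⊆ Γ, IsAntichain (· ⊆ ·) 𝒜 → (∀ A ∈ 𝒜, x ∈ A) → 𝒜.encard ≤ n

def Noe (Γ : Set (Set X)) : Prop := ∀ G : ℕ → Set X, StrictMono G → ¬∀ n, G n ∈ Γ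

theorem wd_iff {Γ : Set (Set X)} {x : X} {n : ℕ} : Wd Γ x n ↔ Rk Γ x n := by
  refine ⟨fun h 𝒜 h1 h2 h3 => ?_, fun h f h1 h2 => ?_⟩
  · by_contra h4
    obtain ⟨t, h5, h6⟩ := exists_subset_encard_eq (k := (n + 1 : ℕ)) (Order.add_one_le_of_lt (not_le.1 h4))
    have h7 := finite_of_encard_eq_coe h6
    have e : Fin (n + 1) ≃ t := by
      have := h7.fintype
      refine (Fintype.equivFinOfCardEq ?_).symm
      rw [encard_eq_coe_toFinset_card, toFinset_card] at h6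
      exact_mod_cast h6
    obtain ⟨i, j, h8, h9⟩ := h (fun i => e i) (fun i => h1 (h5 (e i).2)) fun i => h3 _ (h5 (e i).2)
    exact h2 (h5 (e i).2) (h5 (e j).2) (fun h => h8 (e.injective (Subtype.ext h))) h9
  · by_contra! H
    have h3 : Function.Injective f := fun i j h => by_contra fun h' => H i j h' h.subset
    have := h (range f) (range_subset_iff.2 h1) (by
      rintro _ ⟨i, rfl⟩ _ ⟨j, rfl⟩ h
      exact H i j fun h' => h (h' ▸ rfl)) (forall_mem_range.2 h2)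
    rw [← image_univ, h3.encard_image, encard_univ, ENat.card_eq_coe_fintype_card, Fintype.card_fin] at this
    exact absurd (Nat.cast_le.1 this) (by omega)

theorem Wd.mono {Γ Δ : Set (Set X)} {x : X} {n : ℕ} (h : Wd Γ x n) (h' : Δ ⊆ Γ) : Wd Δ x n :=
  fun f h1 h2 => h f (fun i => h' (h1 i)) h2

theorem Wd.seq {Γ : Set (Set X)} {x : X} {n : ℕ} (h : Wd Γ x n) (f : ℕ → Set X) (h1 : ∀ k, f k ∈ Γ)
    (h2 : ∀ k, x ∈ f k) : ∃ k l, k < l ∧ (f k ⊆ f l ∨ f l ⊆ f k) := by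
  obtain ⟨i, j, h3, h4⟩ := h (fun i => f i) (fun _ => h1 _) fun _ => h2 _
  rcases lt_or_gt_of_ne h3 with h | h
  exacts [⟨i, j, h, Or.inl h4⟩, ⟨j, i, h, Or.inr h4⟩]

theorem wq {Γ : Set (Set X)} {x : X} {n : ℕ} (h : Wd Γ x n) (hN : Noe Γ) (f : ℕ → Set X) (h1 : ∀ k, f k ∈ Γ)
    (h2 : ∀ k, x ∈ f k) : ∃ k l, k < l ∧ f l ⊆ f k := by
  by_contra! H
  obtain ⟨g, h3 | h3⟩ := exists_increasing_or_nonincreasing_subseq (· ⊆ ·) f
  · exact hN (fun k => f (g k)) (fun k l h => ⟨h3 k l h, H _ _ (g.strictMono h)⟩) fun _ => h1 _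
  · obtain ⟨k, l, h4, h5 | h5⟩ := h.seq (fun k => f (g k)) (fun _ => h1 _) fun _ => h2 _
    exacts [h3 k l h4 h5, H _ _ (g.strictMono h4) h5]

theorem Noe.union {Γ Δ : Set (Set X)} (h : Noe Γ) (h' : Noe Δ) : Noe (Γ ∪ Δ) := fun G h1 h2 => by
  obtain ⟨g, h3 | h3⟩ := Nat.exists_subseq_of_forall_mem_union _ h2
  exacts [h _ (h1.comp g.strictMono) h3, h' _ (h1.comp g.strictMono) h3]

def cl (Γ : Set (Set X)) : Set (Set X) :=
  {U | U.Nonempty ∧ ∀ F : Set X, F.Finite → F ⊆ U → ∃ B ∈ Γ, F ⊆ B ∧ B ⊆ U}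

theorem Wd.cl {Γ : Set (Set X)} {x : X} {n : ℕ} (h : Wd Γ x n) : Wd (cl Γ) x n := fun f h1 h2 => by
  by_contra! H
  have H' : ∀ i j, ∃ p ∈ f i, i ≠ j → p ∉ f j := fun i j => by
    by_cases h : i = j
    · exact ⟨x, h2 i, fun h' => absurd h h'⟩
    · obtain ⟨p, a, b⟩ := not_subset.1 (H i j h)
      exact ⟨p, a, fun _ => b⟩
  choose p a b using H'
  choose B c d e using fun i => (h1 i).2 (insert x (range (p i))) ((finite_range _).insert _)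
    (insert_subset (h2 i) (range_subset_iff.2 (a i)))
  obtain ⟨i, j, h3, h4⟩ := h B c fun i => d i (mem_insert _ _)
  exact b i j h3 (e j (h4 (d i (Or.inr ⟨j, rfl⟩))))

theorem cl_chain {Γ c : Set (Set X)} (h1 : c ⊆ cl Γ) (h2 : IsChain (· ⊆ ·) c) (h3 : c.Nonempty) :
    ⋃₀ c ∈ cl Γ := by
  refine ⟨h3.elim fun s hs => (h1 hs).1.mono (subset_sUnion_of_mem hs), fun F hF h => ?_⟩
  obtain ⟨s, hs, h4⟩ := h2.directedOn.exists_mem_subset_of_finite_of_subset_sUnion h3 hF h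
  obtain ⟨B, a, b, d⟩ := (h1 hs).2 F hF h4
  exact ⟨B, a, b, d.trans (subset_sUnion_of_mem hs)⟩

noncomputable def μ (B : Set X) : Cardinal := sInf (embeddingToCardinal '' B)

theorem μ_le {B : Set X} {x : X} (h : x ∈ B) : μ B ≤ embeddingToCardinal x :=
  csInf_le' (mem_image_of_mem _ h)

theorem μ_mem {B : Set X} (h : B.Nonempty) : ∃ x ∈ B, embeddingToCardinal x = μ B :=
  csInf_mem (h.image _)

theorem μ_anti {B C : Set X} (h : B.Nonempty) (h' : B ⊆ C) : μ C ≤ μ B := by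
  obtain ⟨x, h1, h2⟩ := μ_mem h
  exact h2 ▸ μ_le (h' h1)

def Mx (Γ : Set (Set X)) (U M : Set X) : Prop :=
  M ∈ cl Γ ∧ M ⊆ U ∧ ∀ M' ∈ cl Γ, M ⊆ M' → M' ⊆ U → μ M ≤ μ M' → M' ⊆ M

theorem ext {Γ : Set (Set X)} {U B : Set X} (h1 : B ∈ cl Γ) (h2 : B ⊆ U) :
    ∃ M, Mx Γ U M ∧ B ⊆ M ∧ μ M = μ B := by
  obtain ⟨M, h3, h4⟩ := zorn_subset_nonempty {M | M ∈ cl Γ ∧ M ⊆ U ∧ μ B ≤ μ M} (fun c a b d => by
    have h5 := cl_chain (fun s hs => (a hs).1) b d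
    obtain ⟨x, ⟨s, h6, h7⟩, h8⟩ := μ_mem h5.1
    exact ⟨_, ⟨h5, sUnion_subset fun s hs => (a hs).2.1, h8 ▸ (a h6).2.2.trans (μ_le h7)⟩,
      fun s hs => subset_sUnion_of_mem hs⟩) B ⟨h1, h2, le_rfl⟩
  exact ⟨M, ⟨h4.prop.1, h4.prop.2.1, fun M' a b c d => h4.le_of_ge ⟨a, c, h4.prop.2.2.trans d⟩ b⟩, h3,
    (μ_anti h1.1 h3).antisymm h4.prop.2.2⟩

end Pool.Agent.H.MP_d968d9
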