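import Pool.Agent.H.MP_d968d9.A

set_option autoImplicit false
open Set Filter Topology TopologicalSpace

namespace Pool.Agent.H.MP_d968d9
universe u
variable {X : Type u} {Γ : Set (Set X)}

def Nn (Γ : Set (Set X)) (y : X) : Prop := ∀ B ∈ cl Γ, y ∈ B → μ B ≠ embeddingToCardinal y

def Ch (Γ : Set (Set X)) (y : X) (U : Set X) (B : ℕ → Set X) : Prop :=
  Antitone B ∧ StrictMono (fun k => μ (B k)) ∧ ∀ k, Mx Γ U (B k) ∧ y ∈ B k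

theorem noeC {n : X → ℕ} (hn : ∀ y, Wd (cl Γ) y (n y)) {N : X → Prop} {U : X → Set X} {B : X → ℕ → Set X}
    (h : ∀ y, N y → Ch Γ y (U y) (B y)) : Noe {C | ∃ y, N y ∧ C = B y (n y)} := fun G h1 h2 => by
  choose y hy hG using h2
  obtain ⟨k0, hk⟩ : ∃ k0, ∀ k, n (y k0) ≤ n (y k) := ⟨_, fun k => Function.argmin_le (fun k => n (y k)) k⟩
  obtain ⟨g, hg⟩ := (wellQuasiOrdered_le (α := Cardinal.{u} × (Fin (n (y k0) + 1) → Cardinal.{u}))).exists_monotone_subseq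
    fun k => (μ (G (k0 + k)), fun j => μ (B (y (k0 + k)) j))
  have h3 : ∀ k (j : Fin (n (y k0) + 1)), G k ⊆ B (y k) j := fun k j =>
    hG k ▸ (h _ (hy k)).1 ((Nat.le_of_lt_succ j.2).trans (hk k))
  obtain ⟨i, j, h4, h5⟩ := hn (y k0) (fun j => B (y (k0 + g j)) j) (fun j => ((h _ (hy _)).2.2 _).1.1)
    fun j => h3 _ _ (h1.monotone (Nat.le_add_right _ _) (hG k0 ▸ ((h _ (hy k0)).2.2 _).2))
  rcases lt_or_gt_of_ne h4 with h6 | h6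
  · exact ((μ_anti ((h _ (hy _)).2.2 _).1.1.1 h5).trans_lt
      (((h _ (hy _)).2.1 h6).trans_le ((hg i j h6.le).2 j))).false
  · have h7 : G (k0 + g j) < G (k0 + g i) := h1 (Nat.add_lt_add_left (g.strictMono h6) _)
    have h8 := ((h _ (hy (k0 + g j))).2.2 (n (y (k0 + g j)))).1
    rw [← hG] at h8
    exact h7.2 (h8.2.2 _ (hG _ ▸ ((h _ (hy _)).2.2 _).1.1) h7.1
      ((h3 _ i).trans (h5.trans ((h _ (hy _)).2.2 _).1.2.1)) (hg j i h6.le).1)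

theorem noeM {n : X → ℕ} (hn : ∀ y, Wd (cl Γ) y (n y)) {𝒞 : Set (Set X)} (h0 : 𝒞 ⊆ cl Γ) (h : Noe 𝒞) :
    Noe {M | ∃ C ∈ 𝒞, Mx Γ C M} := fun G h1 h2 => by
  choose C hC hM using h2
  obtain ⟨g, hg⟩ := (wellQuasiOrdered_le (α := Cardinal.{u})).exists_monotone_subseq fun k => μ (G k)
  obtain ⟨p, hp⟩ := (hM 0).1.1
  obtain ⟨k, l, h3, h4⟩ := wq ((hn p).mono h0) h (fun k => C (g k)) (fun _ => hC _)
    fun k => (hM _).2.1 (h1.monotone (Nat.zero_le _) hp)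
  have h5 := h1 (g.strictMono h3)
  exact h5.2 ((hM _).2.2 _ (hM _).1 h5.1 ((hM _).2.1.trans h4) (hg k l h3.le))

def Ne2 (Γ : Set (Set X)) : Set (Set X) :=
  {B ∈ cl Γ | ∀ B' ∈ cl Γ, B' ⊆ B → μ B' ≤ μ B → embeddingToCardinal B ≤ embeddingToCardinal B'}

theorem noe2 : Noe (Ne2 Γ) := fun G h1 h2 => by
  obtain ⟨k, l, h3, h4, h5⟩ := (wellQuasiOrdered_le (α := Cardinal.{u} × Cardinal.{u}))
    fun k => (μ (G k), embeddingToCardinal (G k))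
  exact (h1 h3).ne (embeddingToCardinal.injective (h5.antisymm ((h2 l).2 _ (h2 k).1 (h1 h3).1 h4)))

theorem rk {y : X} {n : ℕ} (hn : Wd (cl Γ) y n) (h0 : ∃ B ∈ cl Γ, y ∈ B) : ∃ U ∈ cl Γ, y ∈ U ∧
    ∀ B ∈ cl Γ, y ∈ B → B ⊆ U → ∃ (s : ℕ) (f : Fin s → Set X), (∀ i, f i ∈ cl Γ ∧ y ∈ f i ∧ f i ⊆ B) ∧
      ∀ M ∈ cl Γ, y ∈ M → M ⊆ U → ∃ i, f i ⊆ M ∨ M ⊆ f i := by
  classical
  have H : ∃ r, ∃ U ∈ cl Γ, y ∈ U ∧ Wd {B ∈ cl Γ | B ⊆ U} y r :=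
    h0.elim fun B h => ⟨n, B, h.1, h.2, hn.mono (sep_subset _ _)⟩
  obtain ⟨U, h1, h2, h3⟩ := Nat.find_spec H
  refine ⟨U, h1, h2, fun B a b c => ?_⟩
  rcases hr : Nat.find H with _ | s
  · rw [hr] at h3
    obtain ⟨i, j, h, -⟩ := h3 (fun _ => U) (fun _ => ⟨h1, Subset.rfl⟩) fun _ => h2
    exact absurd (Subsingleton.elim (α := Fin 1) i j) h
  have h4 : ¬Wd {B' ∈ cl Γ | B' ⊆ B} y s := fun h => Nat.find_min H (hr ▸ Nat.lt_succ_self s) ⟨B, a, b, h⟩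
  simp only [Wd, not_forall] at h4
  obtain ⟨f, h5, h6, h7⟩ := h4
  refine ⟨s + 1, f, fun i => ⟨(h5 i).1, h6 i, (h5 i).2⟩, fun M d e k => ?_⟩
  rw [hr] at h3
  obtain ⟨i, j, h8, h9⟩ := h3 (Fin.cons M f) (Fin.cases ⟨d, k⟩ fun i => ⟨(h5 i).1, (h5 i).2.trans c⟩)
    (Fin.cases e h6)
  cases i using Fin.cases <;> cases j using Fin.cases
  · exact absurd rfl h8
  · exact ⟨_, Or.inr h9⟩
  · exact ⟨_, Or.inl h9⟩
  · exact absurd ⟨_, _, fun h => h8 (congrArg _ h), h9⟩ h7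

variable [TopologicalSpace X]

theorem cl_open (hΓ : IsTopologicalBasis Γ) {B : Set X} (h : B ∈ cl Γ) : IsOpen B :=
  hΓ.isOpen_iff.2 fun x hx => by simpa using h.2 {x} (finite_singleton x) (singleton_subset_iff.2 hx)

theorem cl_nh (hΓ : IsTopologicalBasis Γ) {y : X} {V : Set X} (h : V ∈ 𝓝 y) : ∃ B ∈ cl Γ, y ∈ B ∧ B ⊆ V := by
  obtain ⟨B, h1, h2, h3⟩ := hΓ.mem_nhds_iff.1 h
  exact ⟨B, ⟨⟨y, h2⟩, fun F _ h => ⟨B, h1, h, Subset.rfl⟩⟩, h2, h3⟩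

variable [T1Space X]

theorem up (hΓ : IsTopologicalBasis Γ) {y : X} (hy : Nn Γ y) {B : Set X} (h1 : B ∈ cl Γ) (h2 : y ∈ B) :
    ∃ V ∈ 𝓝 y, ∀ B' ⊆ V, B'.Nonempty → μ B < μ B' := by
  obtain ⟨x, h3, h4⟩ := μ_mem h1.1
  refine ⟨B \ {x}, ((cl_open hΓ h1).sdiff isClosed_singleton).mem_nhds ⟨h2, fun h => hy B h1 h2 (h ▸ h4.symm)⟩,
    fun B' a b => ?_⟩
  obtain ⟨z, h5, h6⟩ := μ_mem b
  exact (μ_anti b (a.trans sdiff_subset)).lt_of_ne fun h =>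
    (a h5).2 (embeddingToCardinal.injective (h6.trans (h.symm.trans h4.symm)))

theorem ch (hΓ : IsTopologicalBasis Γ) {y : X} {n : ℕ} (hn : Wd (cl Γ) y n) (hy : Nn Γ y) {U : Set X}
    (h1 : U ∈ cl Γ) (h2 : y ∈ U) : ∃ B, Ch Γ y U B := by
  have H : ∀ M : {M // Mx Γ U M ∧ y ∈ M}, ∃ M' : {M // Mx Γ U M ∧ y ∈ M}, μ M.1 < μ M'.1 := fun M => by
    obtain ⟨V, a, b⟩ := up hΓ hy M.2.1.1 M.2.2
    obtain ⟨B, c, d, e⟩ := cl_nh hΓ (inter_mem a ((cl_open hΓ h1).mem_nhds h2))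
    obtain ⟨M', f, g, h⟩ := ext c (e.trans inter_subset_right)
    exact ⟨⟨M', f, g d⟩, h ▸ b B (e.trans inter_subset_left) c.1⟩
  choose F hF using H
  obtain ⟨M0, a, b, -⟩ := ext h1 Subset.rfl
  let M : ℕ → {M // Mx Γ U M ∧ y ∈ M} := fun k => F^[k] ⟨M0, a, b h2⟩
  have hM : StrictMono fun k => μ (M k).1 := strictMono_nat_of_lt_succ fun k => by
    simpa only [M, Function.iterate_succ_apply'] using hF _
  obtain ⟨g, h3 | h3⟩ := exists_increasing_or_nonincreasing_subseq (· ⊇ ·) fun k => (M k).1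
  · exact ⟨fun k => (M (g k)).1, antitone_nat_of_succ_le fun k => h3 _ _ (Nat.lt_succ_self k),
      hM.comp g.strictMono, fun k => (M _).2⟩
  · obtain ⟨k, l, h4, h5 | h5⟩ := hn.seq (fun k => (M (g k)).1) (fun _ => (M _).2.1.1) fun _ => (M _).2.2
    · exact absurd (μ_anti (M _).2.1.1.1 h5) (hM (g.strictMono h4)).not_ge
    · exact absurd h5 (h3 k l h4)

theorem main (hΓ : IsTopologicalBasis Γ) (hn : ∀ y, ∃ n, Wd Γ y n) :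
    ∃ Δ : Set (Set X), IsTopologicalBasis Δ ∧ Noe Δ ∧ ∀ y, ∃ n, Wd Δ y n := by
  choose n hn using fun y => (hn y).imp fun _ h => h.cl
  choose U h1 h2 h3 using fun y => rk (hn y) ((cl_nh hΓ univ_mem).imp fun _ h => ⟨h.1, h.2.1⟩)
  choose! B hB using fun y hy => ch hΓ (hn y) hy (h1 y) (h2 y)
  have h0 : {C | ∃ y, Nn Γ y ∧ C = B y (n y)} ⊆ cl Γ := by
    rintro _ ⟨y, hy, rfl⟩
    exact ((hB y hy).2.2 _).1.1
  have h4 : {M | ∃ C ∈ {C | ∃ y, Nn Γ y ∧ C = B y (n y)}, Mx Γ C M} ∪ Ne2 Γ ⊆ cl Γ :=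
    union_subset (fun _ ⟨_, _, h⟩ => h.1) fun _ h => h.1
  refine ⟨_, isTopologicalBasis_of_isOpen_of_nhds (fun _ h => cl_open hΓ (h4 h)) fun y V hy hV => ?_,
    (noeM hn h0 (noeC hn hB)).union noe2, fun y => ⟨n y, (hn y).mono h4⟩⟩
  replace hV := hV.mem_nhds hy
  by_cases hN : Nn Γ y
  · obtain ⟨⟨c1, c2, -⟩, c3⟩ := (hB y hN).2.2 (n y)
    have c4 := (cl_open hΓ c1).mem_nhds c3
    obtain ⟨B0, a, b, c⟩ := cl_nh hΓ (inter_mem hV c4)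
    obtain ⟨s, f, h5, h6⟩ := h3 y B0 a b ((c.trans inter_subset_right).trans c2)
    choose T h7 h8 using fun i => up hΓ hN (h5 i).1 (h5 i).2.1
    obtain ⟨B1, a', b', c'⟩ := cl_nh hΓ (inter_mem (iInter_mem.2 h7) c4)
    obtain ⟨M, d, e, k⟩ := ext a' (c'.trans inter_subset_right)
    obtain ⟨i, h9 | h9⟩ := h6 M d.1 (e b') (d.2.1.trans c2)
    · exact absurd (k ▸ μ_anti (h5 i).1.1 h9)
        (h8 i B1 ((c'.trans inter_subset_left).trans (iInter_subset _ i)) a'.1).not_ge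
    · exact ⟨M, Or.inl ⟨_, ⟨y, hN, rfl⟩, d⟩, e b', h9.trans ((h5 i).2.2.trans (c.trans inter_subset_left))⟩
  · simp only [Nn, not_forall, not_not] at hN
    obtain ⟨B0, a, b, c⟩ := hN
    obtain ⟨B1, ⟨d, e, k⟩, l⟩ := (InvImage.wf embeddingToCardinal Cardinal.lt_wf).has_min
      {B ∈ cl Γ | y ∈ B ∧ B ⊆ V ∩ B0} (cl_nh hΓ (inter_mem hV ((cl_open hΓ a).mem_nhds b)))
    refine ⟨B1, Or.inr ⟨d, fun B' a' b' c' => not_lt.1 (l B' ⟨a', ?_, b'.trans k⟩)⟩, e, k.trans inter_subset_left⟩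
    obtain ⟨x, h5, h6⟩ := μ_mem a'.1
    rwa [← embeddingToCardinal.injective ((h6.trans_le (c'.trans (μ_le e))).antisymm (c ▸ μ_le (k (b' h5)).2))]

end Pool.Agent.H.MP_d968d9
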