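import Pool.Agent.H.MP_d968d9.B

set_option autoImplicit false
open Set Filter Topology TopologicalSpace

namespace Pool.Agent.H.MP_d968d9
universe u

theorem sub {X : Type u} {Δ : Set (Set X)} (h : ∀ y, ∃ n, Rk Δ y n) :
    ∀ 𝒜 ⊆ Δ, IsAntichain (· ⊆ ·) 𝒜 → (⋂₀ 𝒜).Nonempty → 𝒜.Finite := fun 𝒜 a b ⟨y, hy⟩ =>
  (h y).elim fun _ h => finite_of_encard_le_coe (h 𝒜 a b hy)

theorem mc {ι : Type} [Finite ι] {X : ι → Type u} [∀ i, TopologicalSpace (X i)] [∀ i, T1Space (X i)]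
    (h : ∀ i, ∃ Γ : Set (Set (X i)), IsTopologicalBasis Γ ∧ ∀ y, ∃ n, Wd Γ y n) (𝒰 : Set (Set (∀ i, X i)))
    (hU : ∀ U ∈ 𝒰, IsOpen U) : ∃ 𝒱 : Set (Set (∀ i, X i)), (∀ V ∈ 𝒱, IsOpen V) ∧ ⋃₀ 𝒱 = ⋃₀ 𝒰 ∧
      (∀ V ∈ 𝒱, ∃ U ∈ 𝒰, V ⊆ U) ∧ ∀ x, {V ∈ 𝒱 | x ∈ V}.Finite := by
  choose Δ h1 h2 h3 using fun i => (h i).elim fun _ h => main h.1 h.2
  have hp : ∀ x : ∀ i, X i, (univ.pi fun i => {B ∈ Δ i | x i ∈ B}).PartiallyWellOrderedOn (· ≥ ·) := fun x =>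
    PartiallyWellOrderedOn.pi (r := fun _ => (· ≥ ·)) fun i => partiallyWellOrderedOn_iff_exists_lt.2
      fun f hf => (h3 i (x i)).elim fun _ h => wq h (h2 i) f (fun k => (hf k).1) fun k => (hf k).2
  let S : (∀ i, Set (X i)) → Prop := fun B => (∀ i, B i ∈ Δ i) ∧ ∃ U ∈ 𝒰, univ.pi B ⊆ U
  refine ⟨univ.pi '' {B | Maximal S B}, ?_, Subset.antisymm ?_ ?_, ?_, fun x => ?_⟩
  · rintro _ ⟨B, hB, rfl⟩
    exact isOpen_set_pi finite_univ fun i _ => (h1 i).isOpen (hB.prop.1 i)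
  · rintro x ⟨_, ⟨B, hB, rfl⟩, hx⟩
    exact hB.prop.2.imp fun U h => ⟨h.1, h.2 hx⟩
  · rintro x ⟨U, h4, hx⟩
    obtain ⟨t, h5, h6⟩ := isOpen_pi_iff'.1 (hU U h4) x hx
    choose B a b c using fun i => (h1 i).exists_subset_of_mem_open (h5 i).2 (h5 i).1
    have hw := ((hp x).mono (s := {B | S B ∧ ∀ i, x i ∈ B i}) fun B h i _ => ⟨h.1.1 i, h.2 i⟩).wellFoundedOn
    obtain ⟨⟨M, h7, h8⟩, -, h9⟩ := hw.has_min univ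
      ⟨⟨B, ⟨a, U, h4, (pi_mono fun i _ => c i).trans h6⟩, b⟩, trivial⟩
    exact ⟨_, ⟨M, ⟨h7, fun M' d e => by_contra fun k => h9 ⟨M', d, fun i => e i (h8 i)⟩ trivial ⟨e, k⟩⟩, rfl⟩,
      fun i _ => h8 i⟩
  · rintro _ ⟨B, hB, rfl⟩
    exact hB.prop.2
  · refine ((IsAntichain.finite_of_partiallyWellOrderedOn (r := (· ≥ ·)) (s := {B | Maximal S B ∧ ∀ i, x i ∈ B i})
      (fun B a B' b c d => c (b.1.eq_of_le a.1.prop d).symm)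
      ((hp x).mono fun B h i _ => ⟨h.1.prop.1 i, h.2 i⟩)).image univ.pi).subset ?_
    rintro _ ⟨⟨B, hB, rfl⟩, hx⟩
    exact ⟨B, ⟨hB, fun i => hx i trivial⟩, rfl⟩

abbrev N := WithLowerSet ℕ

theorem n_open {U : Set N} : IsOpen U ↔ IsLowerSet U := IsLowerSet.isOpen_iff_isLowerSet

theorem n_rk : ∃ Γ : Set (Set N), IsTopologicalBasis Γ ∧ ∀ x, Rk Γ x 1 :=
  ⟨_, isTopologicalBasis_opens, fun _ _ a b _ => encard_le_one_iff.2 fun U V hU hV => by_contra fun h =>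
    (IsLowerSet.total (α := ℕ) (n_open.1 (a hU)) (n_open.1 (a hV))).elim (b hU hV h) (b hV hU (Ne.symm h))⟩

theorem n_t0 : T0Space N := (t0Space_iff_exists_isOpen_xor_mem N).2 fun x y h => by
  rcases lt_or_gt_of_ne (α := ℕ) h with h | h
  · exact ⟨Iic x, n_open.2 (isLowerSet_Iic x), Or.inl ⟨self_mem_Iic, h.not_ge⟩⟩
  · exact ⟨Iic y, n_open.2 (isLowerSet_Iic y), Or.inr ⟨self_mem_Iic, h.not_ge⟩⟩

theorem n_no (Δ : Set (Set N)) (h : IsTopologicalBasis Δ) : ∃ G : ℕ → Set N, StrictMono G ∧ ∀ n, G n ∈ Δ := by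
  refine ⟨fun n => Iic (WithLowerSet.toLowerSet n), fun a b h => Iic_ssubset_Iic.2 h, fun n => ?_⟩
  obtain ⟨v, h1, h2, h3⟩ := h.exists_subset_of_mem_open (a := WithLowerSet.toLowerSet n) self_mem_Iic
    (n_open.2 (isLowerSet_Iic _))
  exact (congrArg (· ∈ Δ) (h3.antisymm ((n_open.1 (h.isOpen h1)).Iic_subset h2))).mp h1

theorem n_nm : ∃ 𝒰 : Set (Set (Fin 2 → N)), (∀ U ∈ 𝒰, IsOpen U) ∧ ⋃₀ 𝒰 = univ ∧
    ¬∃ 𝒱 : Set (Set (Fin 2 → N)), (∀ V ∈ 𝒱, IsOpen V) ∧ ⋃₀ 𝒱 = univ ∧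
      (∀ V ∈ 𝒱, ∃ U ∈ 𝒰, V ⊆ U) ∧ ∀ x, {V ∈ 𝒱 | x ∈ V}.Finite := by
  refine ⟨range fun n : N => {x | x 0 ∈ Iic n}, forall_mem_range.2 fun n =>
    (n_open.2 (isLowerSet_Iic n)).preimage (continuous_apply 0),
    eq_univ_of_forall fun x => ⟨_, ⟨x 0, rfl⟩, le_refl (x 0)⟩, fun ⟨𝒱, h1, h2, h3, h4⟩ => ?_⟩
  have h5 : ∀ V ∈ 𝒱, ∃ n : ℕ, ∀ x ∈ V, WithLowerSet.ofLowerSet (x 0) ≤ n := fun V hV => by
    obtain ⟨_, ⟨n, rfl⟩, h⟩ := h3 V hV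
    exact ⟨WithLowerSet.ofLowerSet n, fun x hx => h hx⟩
  choose! m hm using h5
  obtain ⟨b, hb⟩ := ((h4 fun _ => WithLowerSet.toLowerSet 0).image m).bddAbove
  obtain ⟨V, a, c⟩ := eq_univ_iff_forall.1 h2 fun _ => WithLowerSet.toLowerSet (b + 1)
  have h6 : (fun _ => WithLowerSet.toLowerSet 0) ∈ V :=
    n_open.1 ((h1 V a).preimage (continuous_pi fun _ => continuous_id)) (Nat.zero_le (b + 1)) c
  exact absurd ((hm V a _ c).trans (hb ⟨V, ⟨a, h6⟩, rfl⟩)) (Nat.not_succ_le_self b)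

end Pool.Agent.H.MP_d968d9
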