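import Pool.Agent.H.MP_d968d9.B

set_option autoImplicit false
open Set Filter Topology TopologicalSpace

namespace Pool.Agent.H.MP_d968d9
universe u
variable {X : Type u}

theorem unc (x : X) : ∀ (n : ℕ) (Γ : Set (Set X)), (∀ B ∈ Γ, x ∈ B) → Wd Γ x n →
    (∀ C ⊆ Γ, IsChain (· ⊆ ·) C → C.Countable) → Γ.Countable
  | 0, Γ, h1, h2, _ => by
    rcases Γ.eq_empty_or_nonempty with rfl | ⟨B, hB⟩
    · exact countable_empty
    · obtain ⟨i, j, h, -⟩ := h2 (fun _ => B) (fun _ => hB) fun _ => h1 B hB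
      exact absurd (Subsingleton.elim (α := Fin 1) i j) h
  | n + 1, Γ, h1, h2, h3 => by
    have H : ∀ A ∈ Γ, {B ∈ Γ | ¬A ⊆ B ∧ ¬B ⊆ A}.Countable := fun A hA => by
      refine unc x n _ (fun B h => h1 B h.1) (fun f a b => ?_) fun C a => h3 C (a.trans (sep_subset _ _))
      obtain ⟨i, j, h8, h9⟩ := h2 (Fin.cons A f) (Fin.cases hA fun i => (a i).1) (Fin.cases (h1 A hA) b)
      cases i using Fin.cases <;> cases j using Fin.cases
      · exact absurd rfl h8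
      · exact absurd h9 (a _).2.1
      · exact absurd h9 (a _).2.2
      · exact ⟨_, _, fun h => h8 (congrArg _ h), h9⟩
    obtain ⟨C, hC⟩ := zorn_subset {C | C ⊆ Γ ∧ IsChain (· ⊆ ·) C} fun c a b =>
      ⟨⋃₀ c, ⟨sUnion_subset fun s hs => (a hs).1, by
        rintro _ ⟨s, hs, p⟩ _ ⟨t, ht, q⟩ h
        rcases b.total hs ht with h' | h'
        exacts [(a ht).2 (h' p) q h, (a hs).2 p (h' q) h]⟩, fun s hs => subset_sUnion_of_mem hs⟩
    have h4 := h3 C hC.prop.1 hC.prop.2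
    refine (h4.union (h4.biUnion fun A hA => H A (hC.prop.1 hA))).mono fun B hB => ?_
    by_contra! h5
    simp only [mem_union, mem_iUnion, not_or, not_exists] at h5
    refine h5.1 (hC.le_of_ge (y := insert B C) ⟨insert_subset hB hC.prop.1, hC.prop.2.insert fun A hA _ => ?_⟩
      (subset_insert _ _) (mem_insert _ _))
    by_contra! h6
    exact h5.2 A hA ⟨hB, h6.2, h6.1⟩

theorem Noe.mx {Γ : Set (Set X)} (h : Noe Γ) {S : Set (Set X)} (h1 : S ⊆ Γ) (h2 : S.Nonempty) :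
    ∃ M, Maximal (· ∈ S) M := by
  by_contra! H
  have H' : ∀ M : S, ∃ M' : S, M.1 < M'.1 := fun M => by
    obtain ⟨M', a, b⟩ := exists_gt_of_not_maximal M.2 (H M)
    exact ⟨⟨M', b⟩, a⟩
  choose F hF using H'
  obtain ⟨M, hM⟩ := h2
  exact h (fun k => (F^[k] ⟨M, hM⟩).1) (strictMono_nat_of_lt_succ fun k => by
    simpa only [Function.iterate_succ_apply'] using hF _) fun k => h1 (F^[k] ⟨M, hM⟩).2

theorem pc [TopologicalSpace X] [T3Space X]
    (hc : ∀ 𝒰 : Set (Set X), (∀ U ∈ 𝒰, IsOpen U ∧ U.Nonempty) → 𝒰.PairwiseDisjoint id → 𝒰.Countable)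
    {Γ : Set (Set X)} (hΓ : IsTopologicalBasis Γ) (hn : ∀ y, ∃ n, Wd Γ y n) :
    ∃ ℬ : Set (Set X), IsTopologicalBasis ℬ ∧ ∀ x : X, {B ∈ ℬ | x ∈ B}.Countable := by
  obtain ⟨Δ, h1, h2, h3⟩ := main hΓ hn
  refine ⟨{B ∈ Δ | ∀ B' ∈ Δ, B ⊆ B' → B' ⊆ closure B → B' ⊆ B}, isTopologicalBasis_of_isOpen_of_nhds
    (fun _ h => h1.isOpen h.1) fun y V hy hV => ?_, fun x => ?_⟩
  · obtain ⟨F, a, b, c⟩ := exists_mem_nhds_isClosed_subset (hV.mem_nhds hy)
    obtain ⟨B, d, e, f⟩ := h1.mem_nhds_iff.1 a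
    obtain ⟨M, hM⟩ := h2.mx (S := {B ∈ Δ | y ∈ B ∧ B ⊆ F}) (sep_subset _ _) ⟨B, d, e, f⟩
    exact ⟨M, ⟨hM.prop.1, fun B' p q r => hM.le_of_ge ⟨p, q hM.prop.2.1,
      r.trans (closure_minimal hM.prop.2.2 b)⟩ q⟩, hM.prop.2.1, hM.prop.2.2.trans c⟩
  obtain ⟨n, hn⟩ := h3 x
  refine unc x n _ (fun _ h => h.2) (hn.mono fun _ h => h.1.1) fun C a b => ?_
  let O : Set X → Set X := fun B => B \ closure (⋃₀ {B' ∈ C | B' ⊂ B})
  have h4 : ∀ B ∈ C, (O B).Nonempty := fun B hB => by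
    rcases {B' ∈ C | B' ⊂ B}.eq_empty_or_nonempty with h | h
    · exact ⟨x, (a hB).2, by simp [h]⟩
    obtain ⟨M, hM⟩ := h2.mx (fun B' h => (a h.1).1.1) h
    refine diff_nonempty.2 fun h5 => hM.prop.2.2 ((a hM.prop.1).1.2 B (a hB).1.1 hM.prop.2.1
      (h5.trans (closure_mono (sUnion_subset fun B' h6 => ?_))))
    exact (b.total h6.1 hM.prop.1).elim id (hM.le_of_ge h6)
  have h5 : ∀ B ∈ C, ∀ B' ∈ C, B ≠ B' → Disjoint (O B) (O B') := fun B p B' q r => by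
    rcases b p q r with h | h
    · exact disjoint_left.2 fun z s t => t.2 (subset_closure ⟨B, ⟨p, h.ssubset_of_ne r⟩, s.1⟩)
    · exact disjoint_left.2 fun z s t => s.2 (subset_closure ⟨B', ⟨q, h.ssubset_of_ne r.symm⟩, t.1⟩)
  refine countable_of_injective_of_countable_image (f := O) (fun B p B' q r => by_contra fun h => ?_)
    (hc _ (forall_mem_image.2 fun B p => ⟨(h1.isOpen (a p).1.1).sdiff isClosed_closure, h4 B p⟩) ?_)
  · exact (h4 B p).ne_empty (disjoint_self.1 (r ▸ h5 B p B' q h : Disjoint (O B) (O B)))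
  · rintro _ ⟨B, p, rfl⟩ _ ⟨B', q, rfl⟩ h
    exact h5 B p B' q fun h' => h (h' ▸ rfl)

end Pool.Agent.H.MP_d968d9
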